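import Mathlib

/-!
# Weighted `ℓ¹`-type topologies on a countably dimensional space

`V` is a vector space over `𝕜` with a Hamel basis `b` indexed by `ℕ`, and `W` is a family of
weights `ℕ → ℝ≥0` that contains the constant weight `1` and is closed under sums.  The seminorms
`∑ w n * ‖b.repr v n‖` generate a Hausdorff locally convex topology on `V`; it is complete as soon
as for every scalar sequence with infinite support some weight of `W` is not summable on it in a
strong sense.
-/

set_option autoImplicit false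

open Filter Topology Set
open scoped NNReal Uniformity

namespace Pool.Agent.Q188.CH

variable {𝕜 V : Type} [RCLike 𝕜] [AddCommGroup V] [Module 𝕜 V]

/-- the weighted `ℓ¹`-seminorm in the coordinates of the basis `b` -/
noncomputable def psn (b : Module.Basis ℕ 𝕜 V) (w : ℕ → ℝ≥0) : Seminorm 𝕜 V :=
  Seminorm.of (fun v => ∑ n ∈ (b.repr v).support, (w n : ℝ) * ‖b.repr v n‖)
    (fun x y => by
      classical
      have hx : ∑ n ∈ (b.repr x).support, (w n : ℝ) * ‖b.repr x n‖
          = ∑ n ∈ (b.repr x).support ∪ (b.repr y).support, (w n : ℝ) * ‖b.repr x n‖ :=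
        Finset.sum_subset Finset.subset_union_left fun n _ hn => by
          rw [Finsupp.notMem_support_iff.1 hn]; simp
      have hy : ∑ n ∈ (b.repr y).support, (w n : ℝ) * ‖b.repr y n‖
          = ∑ n ∈ (b.repr x).support ∪ (b.repr y).support, (w n : ℝ) * ‖b.repr y n‖ :=
        Finset.sum_subset Finset.subset_union_right fun n _ hn => by
          rw [Finsupp.notMem_support_iff.1 hn]; simp
      have hxy : ∑ n ∈ (b.repr (x + y)).support, (w n : ℝ) * ‖b.repr (x + y) n‖
          = ∑ n ∈ (b.repr x).support ∪ (b.repr y).support, (w n : ℝ) * ‖b.repr (x + y) n‖ := by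
        refine Finset.sum_subset ?_ fun n _ hn => by
          rw [Finsupp.notMem_support_iff.1 hn]; simp
        rw [map_add]
        exact Finsupp.support_add
      rw [hx, hy, hxy, ← Finset.sum_add_distrib]
      refine Finset.sum_le_sum fun n _ => ?_
      rw [map_add, Finsupp.add_apply, ← mul_add]
      exact mul_le_mul_of_nonneg_left (norm_add_le _ _) (w n).2)
    (fun a x => by
      by_cases ha : a = 0
      · subst ha; simp
      · rw [map_smul, Finsupp.support_smul_eq ha, Finset.mul_sum]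
        refine Finset.sum_congr rfl fun n _ => ?_
        rw [Finsupp.smul_apply, smul_eq_mul, norm_mul]
        ring)

lemma psn_apply (b : Module.Basis ℕ 𝕜 V) (w : ℕ → ℝ≥0) (v : V) :
    psn b w v = ∑ n ∈ (b.repr v).support, (w n : ℝ) * ‖b.repr v n‖ := rfl

lemma sum_le_psn (b : Module.Basis ℕ 𝕜 V) (w : ℕ → ℝ≥0) (v : V) (G : Finset ℕ) :
    ∑ n ∈ G, (w n : ℝ) * ‖b.repr v n‖ ≤ psn b w v := by
  classical
  rw [psn_apply]
  calc ∑ n ∈ G, (w n : ℝ) * ‖b.repr v n‖
      ≤ ∑ n ∈ G ∪ (b.repr v).support, (w n : ℝ) * ‖b.repr v n‖ :=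
        Finset.sum_le_sum_of_subset_of_nonneg Finset.subset_union_left fun n _ _ => by positivity
    _ = _ := (Finset.sum_subset Finset.subset_union_right fun n _ hn => by
          rw [Finsupp.notMem_support_iff.1 hn]; simp).symm

lemma psn_eq (b : Module.Basis ℕ 𝕜 V) (w : ℕ → ℝ≥0) (v : V) (G : Finset ℕ)
    (hG : (b.repr v).support ⊆ G) :
    psn b w v = ∑ n ∈ G, (w n : ℝ) * ‖b.repr v n‖ := by
  rw [psn_apply]
  exact Finset.sum_subset hG fun n _ hn => by
          rw [Finsupp.notMem_support_iff.1 hn]; simp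

lemma coord_le_psn (b : Module.Basis ℕ 𝕜 V) (w : ℕ → ℝ≥0) (v : V) (n : ℕ) :
    (w n : ℝ) * ‖b.repr v n‖ ≤ psn b w v := by
  have := sum_le_psn b w v {n}
  simpa using this

lemma psn_basis (b : Module.Basis ℕ 𝕜 V) (w : ℕ → ℝ≥0) (n : ℕ) :
    psn b w (b n) = w n := by
  rw [psn_eq b w (b n) {n}]
  · simp
  · rw [Module.Basis.repr_self]
    exact Finsupp.support_single_subset

lemma psn_map_le (b : Module.Basis ℕ 𝕜 V) (q : Seminorm 𝕜 V) (T : V →ₗ[𝕜] V) (w : ℕ → ℝ≥0)
    (hw : ∀ n, q (T (b n)) ≤ w n) (v : V) : q (T v) ≤ psn b w v := by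
  have h1 : T v = ∑ n ∈ (b.repr v).support, b.repr v n • T (b n) := by
    conv_lhs => rw [← b.linearCombination_repr v, Finsupp.linearCombination_apply, Finsupp.sum,
      map_sum]
    exact Finset.sum_congr rfl fun n _ => by rw [map_smul]
  rw [h1, psn_apply]
  calc q (∑ n ∈ (b.repr v).support, b.repr v n • T (b n))
      ≤ ∑ n ∈ (b.repr v).support, q (b.repr v n • T (b n)) := Finset.le_sum_of_subadditive q (map_zero q).le (map_add_le_add q) _ _
    _ ≤ _ := Finset.sum_le_sum fun n _ => by
        rw [map_smul_eq_mul, mul_comm]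
        exact mul_le_mul_of_nonneg_right (hw n) (norm_nonneg _)

lemma psn_mono (b : Module.Basis ℕ 𝕜 V) {w w' : ℕ → ℝ≥0} (h : ∀ n, w n ≤ w' n) (v : V) :
    psn b w v ≤ psn b w' v := by
  rw [psn_apply, psn_apply]
  exact Finset.sum_le_sum fun n _ => mul_le_mul_of_nonneg_right (by exact_mod_cast h n)
    (norm_nonneg _)

/-- the family of seminorms given by a set of weights -/
noncomputable def fam (b : Module.Basis ℕ 𝕜 V) (W : Set (ℕ → ℝ≥0)) : SeminormFamily 𝕜 V W :=
  fun w => psn b w.1

lemma sup_fam_le (b : Module.Basis ℕ 𝕜 V) {W : Set (ℕ → ℝ≥0)} (h1 : (fun _ => 1) ∈ W)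
    (hadd : ∀ w ∈ W, ∀ w' ∈ W, (fun n => w n + w' n) ∈ W) (s : Finset W) :
    ∃ w ∈ W, (s.sup (fam b W)) ≤ psn b w := by
  classical
  induction s using Finset.induction_on with
  | empty => exact ⟨_, h1, by rw [Finset.sup_empty]; exact fun v => apply_nonneg _ v⟩
  | insert a s ha ih =>
    obtain ⟨w, hw, hws⟩ := ih
    refine ⟨_, hadd _ a.2 _ hw, ?_⟩
    rw [Finset.sup_insert]
    refine sup_le (fun v => psn_mono b (fun n => ?_) v) (hws.trans fun v => psn_mono b (fun n => ?_) v)
    · exact le_self_add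
    · exact le_add_self

variable (b : Module.Basis ℕ 𝕜 V) (W : Set (ℕ → ℝ≥0))

theorem space (h1 : (fun _ => 1) ∈ W)
    (hadd : ∀ w ∈ W, ∀ w' ∈ W, (fun n => w n + w' n) ∈ W)
    (htall : ∀ a : ℕ → 𝕜, {n | a n ≠ 0}.Infinite → ∃ w ∈ W, {n | 2 ≤ (w n : ℝ) * ‖a n‖}.Infinite) :
    ∃ (_ : UniformSpace V) (_ : IsUniformAddGroup V) (_ : ContinuousSMul 𝕜 V),
      WithSeminorms (fam b W) ∧ CompleteSpace V ∧ T2Space V := by
  let t : TopologicalSpace V := (fam b W).moduleFilterBasis.topology
  have hp : WithSeminorms (fam b W) := ⟨rfl⟩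
  have i1 : IsTopologicalAddGroup V := hp.topologicalAddGroup
  have i2 : ContinuousSMul 𝕜 V := hp.continuousSMul
  let u : UniformSpace V := IsTopologicalAddGroup.rightUniformSpace V
  have i3 : IsUniformAddGroup V := isUniformAddGroup_of_addCommGroup
  refine ⟨u, i3, i2, hp, ?_, ?_⟩
  · refine ⟨fun {F} hF => ?_⟩
    have hNB : F.NeBot := hF.1
    have key : ∀ w ∈ W, ∀ ε : ℝ, 0 < ε → ∃ A ∈ F, ∀ x ∈ A, ∀ y ∈ A, psn b w (y - x) < ε := by
      intro w hw ε hε
      have h2 := hF.2
      rw [uniformity_eq_comap_nhds_zero V] at h2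
      have hU : (psn b w).ball 0 ε ∈ 𝓝 (0 : V) := by
        refine hp.hasBasis_zero_ball.mem_iff.2 ⟨({⟨w, hw⟩}, ε), hε, ?_⟩
        rw [Finset.sup_singleton]
        exact subset_rfl
      have h3 := h2 (preimage_mem_comap hU)
      rw [mem_prod_self_iff] at h3
      obtain ⟨A, hA, hAU⟩ := h3
      refine ⟨A, hA, fun x hx y hy => ?_⟩
      have := hAU (mk_mem_prod hx hy)
      simpa [Seminorm.mem_ball_zero] using this
    -- coordinates converge
    have hco : ∀ n, ∃ a : 𝕜, Tendsto (fun v => b.repr v n) F (𝓝 a) := by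
      intro n
      have hc : Cauchy (F.map fun v => b.repr v n) := by
        rw [Metric.cauchy_iff]
        refine ⟨hNB.map _, fun ε hε => ?_⟩
        obtain ⟨A, hA, hAU⟩ := key _ h1 ε hε
        refine ⟨_, image_mem_map hA, ?_⟩
        rintro _ ⟨x, hx, rfl⟩ _ ⟨y, hy, rfl⟩
        have h4 := hAU x hx y hy
        have h5 := coord_le_psn b (fun _ => 1) (y - x) n
        rw [map_sub, Finsupp.sub_apply] at h5
        simp only [NNReal.coe_one, one_mul] at h5
        rw [dist_comm, dist_eq_norm]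
        exact h5.trans_lt h4
      obtain ⟨a, ha⟩ := CompleteSpace.complete hc
      exact ⟨a, ha⟩
    choose a ha using hco
    have hfin : {n | a n ≠ 0}.Finite := by
      by_contra hinf
      obtain ⟨w, hw, hwinf⟩ := htall a hinf
      obtain ⟨A, hA, hAU⟩ := key w hw 1 one_pos
      obtain ⟨x₀, hx₀⟩ := hNB.nonempty_of_mem hA
      obtain ⟨n, hn, hn'⟩ := (hwinf.sdiff (b.repr x₀).support.finite_toSet).nonempty
      have hn0 : b.repr x₀ n = 0 := by simpa using hn'
      have h6 : Tendsto (fun v => (w n : ℝ) * ‖b.repr v n‖) F (𝓝 ((w n : ℝ) * ‖a n‖)) :=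
        (ha n).norm.const_mul _
      have h7 : (w n : ℝ) * ‖a n‖ ≤ 1 := by
        refine le_of_tendsto h6 ?_
        filter_upwards [hA] with v hv
        have := (coord_le_psn b w (v - x₀) n).trans (hAU x₀ hx₀ v hv).le
        rwa [map_sub, Finsupp.sub_apply, hn0, sub_zero] at this
      have h8 : (2 : ℝ) ≤ (w n : ℝ) * ‖a n‖ := hn
      linarith
    let a' : ℕ →₀ 𝕜 := Finsupp.ofSupportFinite a hfin
    let q : V := b.repr.symm a'
    have hq : ∀ n, b.repr q n = a n := fun n => by
      change b.repr (b.repr.symm a') n = a n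
      rw [LinearEquiv.apply_symm_apply]
      rfl
    refine ⟨q, ?_⟩
    rw [hp.hasBasis_ball.ge_iff]
    rintro ⟨s, r⟩ hr
    obtain ⟨w, hw, hws⟩ := sup_fam_le b h1 hadd s
    obtain ⟨A, hA, hAU⟩ := key w hw (r / 2) (half_pos hr)
    refine mem_of_superset hA fun x hx => ?_
    rw [Seminorm.mem_ball]
    refine (hws _).trans_lt ?_
    classical
    have h9 : psn b w (x - q) = ∑ n ∈ (b.repr x).support ∪ (b.repr q).support,
        (w n : ℝ) * ‖b.repr x n - a n‖ := by
      rw [psn_eq b w (x - q) ((b.repr x).support ∪ (b.repr q).support)]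
      · refine Finset.sum_congr rfl fun n _ => ?_
        rw [map_sub, Finsupp.sub_apply, hq]
      · rw [map_sub]
        exact Finsupp.support_sub
    have h10 : Tendsto (fun v => ∑ n ∈ (b.repr x).support ∪ (b.repr q).support,
        (w n : ℝ) * ‖b.repr x n - b.repr v n‖) F
        (𝓝 (∑ n ∈ (b.repr x).support ∪ (b.repr q).support, (w n : ℝ) * ‖b.repr x n - a n‖)) :=
      tendsto_finsetSum _ fun n _ => ((tendsto_const_nhds.sub (ha n)).norm).const_mul _
    rw [h9]
    have h11 : ∑ n ∈ (b.repr x).support ∪ (b.repr q).support, (w n : ℝ) * ‖b.repr x n - a n‖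
        ≤ r / 2 := by
      refine le_of_tendsto h10 ?_
      filter_upwards [hA] with v hv
      have h12 := (sum_le_psn b w (x - v) ((b.repr x).support ∪ (b.repr q).support)).trans
        (hAU v hv x hx).le
      simpa only [map_sub, Finsupp.sub_apply] using h12
    have hr' : (0 : ℝ) < r := hr
    linarith
  · have : T1Space V := hp.T1_of_separating fun v hv => by
      by_contra hcon
      push Not at hcon
      apply hv
      have h13 : ∀ n, b.repr v n = 0 := fun n => by
        have h14 := coord_le_psn b (fun _ => 1) v n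
        have h15 : psn b (fun _ => 1) v = 0 := hcon ⟨_, h1⟩
        rw [h15] at h14
        simp only [NNReal.coe_one, one_mul] at h14
        exact norm_le_zero_iff.1 h14
      have h16 : b.repr v = 0 := Finsupp.ext h13
      exact (LinearEquiv.map_eq_zero_iff _).1 h16
    infer_instance

end Pool.Agent.Q188.CH
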